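import Pool.Agent.KS6_76.TP.Main

/-!
# Throughput scheduling with release dates is para-`NP`-hard in `p_max + w_max + k`, on every number
of machines
-/

set_option autoImplicit false

namespace Pool.Agent.Results.MP_4ed2ca_lc.EveryNumberOfMachines

open Pool.Agent.NPC Pool.Agent.H633R2 Pool.Agent.H741R2.LJ Pool.Agent.H257R2.LJW
  Pool.Agent.KS6_76.TP

/-- For every number `m ≥ 1` of identical parallel machines:
(1) every language of `NP` is reduced in polynomial time to instances of `P_m | r_j | ∑ U_j` in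
which no job may be late (`k = 0`), the processing times are among `1, 2, 5, 7, 10, 13` and the
release and due dates are between `0` and `20` times the number of jobs;
(2) `P_m | r_j | ∑ U_j`, parameterized by `p_max + k`, and `P_m | r_j | ∑ w_j U_j`, parameterized
by `p_max + w_max + k`, are `W[1]`-hard;
(3) none of the two is in `XP` unless `P = NP`.
(4), (5) For `m = 1` these are the problems `1 | r_j | ∑ U_j` and `1 | r_j | ∑ w_j U_j`, which are
therefore `W[1]`-hard with the parameter `p_max` (Q1 and Q2). -/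
theorem result :
    (∀ m : ℕ, 1 ≤ m →
      (∀ L : Set (List Bool), InNP L → ∃ f : List Bool → List (ℕ × ℕ × ℤ) × ℕ,
        PolyTime (fun x => bits (f x)) ∧ (∀ x, Small (f x)) ∧ ∀ x, x ∈ L ↔ JobsM m (f x)) ∧
      (W1Hard par (JobsM m) ∧ W1Hard wpar (WJobsM m)) ∧
      (InXP par (JobsM m) ∨ InXP wpar (WJobsM m) → ∀ L : Set (List Bool), InNP L → InP L)) ∧
    ((∀ I, JobsM 1 I ↔ Jobs I) ∧ ∀ I, WJobsM 1 I ↔ WJobs I) ∧
    W1Hard pmax Jobs ∧ W1Hard wpmax WJobs := by
  refine ⟨fun m hm => ?_, ⟨jobsM_one, wjobsM_one⟩, ?_, ?_⟩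
  · obtain ⟨m, rfl⟩ : ∃ m', m = m' + 1 := ⟨m - 1, by omega⟩
    refine ⟨fun L hL => ?_, ⟨w1Hard_of_hardPr 13 (hard_jobsM m),
      w1Hard_of_hardPr 14 (hard_wjobsM m)⟩, ?_⟩
    · obtain ⟨f, hf, hpr, h⟩ := hard_small m L hL
      exact ⟨f, PC.toPolyTime hf, hpr, h⟩
    · rintro (h | h)
      · exact xp_collapse 13 (hard_jobsM m) h
      · exact xp_collapse 14 (hard_wjobsM m) h
  · refine w1Hard_of_hardPr 13 ((hard_jobsM 0).trans Poly.id (fun I h => ?_) fun I _ => ?_)
    · exact le_trans (Nat.le_add_right _ _) h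
    · exact jobsM_one I
  · refine w1Hard_of_hardPr 14 ((hard_wjobsM 0).trans Poly.id (fun I h => ?_) fun I _ => ?_)
    · exact le_trans ((Nat.le_add_right _ _).trans (Nat.le_add_right _ _)) h
    · exact wjobsM_one I

end Pool.Agent.Results.MP_4ed2ca_lc.EveryNumberOfMachines
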